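import Pool.Agent.Helper92.AM.Final

/-!
An amalgamated free product of two finitely generated nilpotent groups over an abelian group which is
not flawed.

The example. `E = ℤ³ ⋊ ℤ`, where the generator of the right factor acts by the unipotent matrix
`e₁ ↦ e₁ + e₂ + e₃`, `e₂ ↦ e₂ + 2 e₃`, `e₃ ↦ e₃`; it is nilpotent of class 3. Both factors are equal to `E`,
`C = ℤ²` is generated by `c₂` and `c₁`, which go to `e₁`, `e₂` in the first factor and to `e₃`, `t` in the
second one, where `t` is the generator of the right factor of `E`.

Outline of the proof. Let `x` be the element `t` of the first factor and `y` the element `e₁` of the second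
factor. For every homomorphism from the amalgam to `GL₄(ℂ)` the trace of the commutator
`[x c₂²⁴ x⁻¹, y]` is `4` or `580`: as `c₂²` is a commutator of elements which commute with `c₂`, the
eigenvalues of `c₂` are 24th roots of unity, `N = c₂²⁴ - 1` has rank at most one, and if `N ≠ 0` then the
relations of the two factors determine the trace. The value `580` is attained by an explicit
representation over `ℤ`. The trace of a unitary matrix of size 4 has absolute value at most 4. So the
trace function separates `𝒳_Γ(GL₄(ℂ))` into two open and closed subsets, one of which does not meet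
`𝒳_Γ(U(4))`.
-/

namespace Pool.Agent.Results.MP_b6c7ab_al.AmalgamNotFlawed

open Pool.Agent.Helper92.FL Pool.Agent.Helper92.AM

/-- `Γ` is not `G`-flawed: for every finite generating family `s` of `Γ` the homomorphisms from `Γ` to the
subgroup `K` of `G` have closed `G`-orbits in `Hom(Γ, G)` and the natural map `𝒳_Γ(K) → 𝒳_Γ(G)` is not a
strong deformation retraction; moreover `𝒳_Γ(G)` has a nonempty open and closed subset which does not
meet the image of `𝒳_Γ(K)`. -/
def NotFlawedAt (Γ : Type) [Group Γ] {G : Type} [Group G] [TopologicalSpace G] (K : Subgroup G) :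
    Prop :=
  ∀ (q : ℕ) (s : Fin q → Γ), Subgroup.closure (Set.range s) = ⊤ →
    ∃ h : ∀ ψ : Rep s K, IsClosed (MulAction.orbit G (incl s K ψ)),
      ¬ IsSDR (iG s K h) ∧
      ∃ W : Set (XG s G), IsClopen W ∧ W.Nonempty ∧ Disjoint W (Set.range (iG s K h))

/-- There are finitely generated nilpotent groups `A false`, `A true` and an abelian group `C` embedded in
both such that `Γ = A false *_C A true` is not `G`-flawed for `G = GL₄(ℂ)` and its maximal compact
subgroup `K = U(4)`. -/
theorem result : ∃ (A : Bool → Type) (_ : ∀ i, Group (A i)) (C : Type) (_ : CommGroup C)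
    (φ : ∀ i, C →* A i),
    (∀ i, Group.FG (A i)) ∧ (∀ i, Group.IsNilpotent (A i)) ∧ (∀ i, Function.Injective (φ i)) ∧
    Group.FG (Monoid.PushoutI φ) ∧ IsMaxCompact (U 4) ∧ NotFlawedAt (Monoid.PushoutI φ) (U 4) := by
  refine ⟨fun _ => E, fun _ => inferInstance, C, inferInstance, emb, fun _ => E.fg,
    fun _ => E.isNilpotent, emb_inj, fg, isMaxCompact_U 4, ?_⟩
  intro q s hs
  have h : ∀ ψ : Rep s (U 4), IsClosed (MulAction.orbit (GL (Fin 4) ℂ) (incl s (U 4) ψ)) :=
    closed_unitary hs
  obtain ⟨W, h1, h2, h3⟩ := exists_clopen hs w dich (by norm_num) (by norm_num) rho trace_rho h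
  exact ⟨h, not_sdr h1 h2 h3, W, h1, h2, h3⟩

end Pool.Agent.Results.MP_b6c7ab_al.AmalgamNotFlawed
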